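import Mathlib

set_option autoImplicit false

/-! Conditional expectations of uniform random subsets of a finite set, stopping regions (MP_2e6055). -/

namespace Pool.Agent.H75.Per

open Finset Classical

variable {α : Type*}

/-- Average of `F` over the subsets `ω` of `E` that agree with `ω₀` on `S`. -/
noncomputable def CX (E S ω₀ : Finset α) (F : Finset α → ℝ) : ℝ :=
  (∑ ω ∈ E.powerset.filter (fun ω => ω ∩ S = ω₀ ∩ S), F ω) / 2 ^ (E \ S).card

/-- indicator -/
noncomputable def I (p : Prop) : ℝ := if p then 1 else 0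

lemma I_true {p : Prop} (h : p) : I p = 1 := if_pos h
lemma I_false {p : Prop} (h : ¬ p) : I p = 0 := if_neg h
lemma I_nonneg (p : Prop) : 0 ≤ I p := by unfold I; split_ifs <;> norm_num
lemma I_le_one (p : Prop) : I p ≤ 1 := by unfold I; split_ifs <;> norm_num
lemma I_mono {p q : Prop} (h : p → q) : I p ≤ I q := by
  unfold I
  split_ifs with h1 h2 h2
  · exact le_rfl
  · exact absurd (h h1) h2
  · norm_num
  · exact le_rfl
lemma I_and (p q : Prop) : I (p ∧ q) = I p * I q := by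
  unfold I
  by_cases hp : p <;> by_cases hq : q <;> simp [hp, hq]
lemma I_not (p : Prop) : I (¬ p) = 1 - I p := by
  unfold I
  by_cases hp : p <;> simp [hp]

lemma card_fiber {E S ω₀ : Finset α} (h : ω₀ ⊆ E) :
    (E.powerset.filter (fun ω => ω ∩ S = ω₀ ∩ S)).card = 2 ^ (E \ S).card := by
  rw [← card_powerset (E \ S)]
  apply card_nbij' (fun ω => ω \ S) (fun ω => ω ∪ (ω₀ ∩ S))
  · intro ω hω
    rw [mem_coe, mem_filter, mem_powerset] at hω
    rw [mem_coe, mem_powerset]
    exact sdiff_subset_sdiff hω.1 (Subset.refl _)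
  · intro ω hω
    rw [mem_coe, mem_powerset] at hω
    rw [mem_coe, mem_filter, mem_powerset]
    constructor
    · exact union_subset (hω.trans sdiff_subset) (inter_subset_left.trans h)
    · ext x
      simp only [mem_inter, mem_union]
      constructor
      · rintro ⟨h1 | h1, h2⟩
        · exact absurd h2 (mem_sdiff.1 (hω h1)).2
        · exact h1
      · rintro ⟨h1, h2⟩
        exact ⟨Or.inr ⟨h1, h2⟩, h2⟩
  · intro ω hω
    rw [mem_coe, mem_filter] at hω
    show ω \ S ∪ (ω₀ ∩ S) = ω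
    rw [← hω.2]
    ext x
    simp only [mem_union, mem_sdiff, mem_inter]
    tauto
  · intro ω hω
    rw [mem_coe, mem_powerset] at hω
    show (ω ∪ (ω₀ ∩ S)) \ S = ω
    ext x
    simp only [mem_sdiff, mem_union, mem_inter]
    constructor
    · rintro ⟨h1 | h1, h2⟩
      · exact h1
      · exact absurd h1.2 h2
    · intro h1
      exact ⟨Or.inl h1, (mem_sdiff.1 (hω h1)).2⟩

variable {E S ω₀ : Finset α} {F G : Finset α → ℝ}

lemma CX_mono (h : ∀ ω ⊆ E, ω ∩ S = ω₀ ∩ S → F ω ≤ G ω) : CX E S ω₀ F ≤ CX E S ω₀ G := by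
  unfold CX
  apply div_le_div_of_nonneg_right _ (by positivity)
  apply sum_le_sum
  intro ω hω
  rw [mem_filter, mem_powerset] at hω
  exact h ω hω.1 hω.2

lemma CX_congr (h : ∀ ω ⊆ E, ω ∩ S = ω₀ ∩ S → F ω = G ω) : CX E S ω₀ F = CX E S ω₀ G :=
  le_antisymm (CX_mono fun ω h1 h2 => (h ω h1 h2).le) (CX_mono fun ω h1 h2 => (h ω h1 h2).ge)

lemma CX_nonneg (h : ∀ ω ⊆ E, ω ∩ S = ω₀ ∩ S → 0 ≤ F ω) : 0 ≤ CX E S ω₀ F := by
  unfold CX
  apply div_nonneg _ (by positivity)
  apply sum_nonneg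
  intro ω hω
  rw [mem_filter, mem_powerset] at hω
  exact h ω hω.1 hω.2

lemma CX_add : CX E S ω₀ (fun ω => F ω + G ω) = CX E S ω₀ F + CX E S ω₀ G := by
  unfold CX
  rw [sum_add_distrib, add_div]

lemma CX_sub : CX E S ω₀ (fun ω => F ω - G ω) = CX E S ω₀ F - CX E S ω₀ G := by
  unfold CX
  rw [sum_sub_distrib, sub_div]

lemma CX_smul (c : ℝ) : CX E S ω₀ (fun ω => c * F ω) = c * CX E S ω₀ F := by
  unfold CX
  rw [← mul_sum, mul_div_assoc]

lemma CX_const (h : ω₀ ⊆ E) (c : ℝ) : CX E S ω₀ (fun _ => c) = c := by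
  unfold CX
  rw [sum_const, card_fiber h, nsmul_eq_mul]
  push_cast
  rw [mul_comm, mul_div_assoc, div_self (by positivity), mul_one]

lemma CX_ctx {ω₁ : Finset α} (h : ω₁ ∩ S = ω₀ ∩ S) : CX E S ω₁ F = CX E S ω₀ F := by
  unfold CX
  rw [h]

lemma CX_le (hE : ω₀ ⊆ E) {c : ℝ} (h : ∀ ω ⊆ E, ω ∩ S = ω₀ ∩ S → F ω ≤ c) : CX E S ω₀ F ≤ c := by
  calc CX E S ω₀ F ≤ CX E S ω₀ (fun _ => c) := CX_mono h
    _ = c := CX_const hE c

/-- A stopping region: the revealed set, determined by what is revealed. -/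
structure IsStop (E : Finset α) (T : Finset α → Finset α) : Prop where
  stop : ∀ ω ⊆ E, ∀ ω' ⊆ E, ω' ∩ T ω = ω ∩ T ω → T ω' = T ω

/-- `X` is determined by the region `T`. -/
def Meas {β : Sort*} (E : Finset α) (T : Finset α → Finset α) (X : Finset α → β) : Prop :=
  ∀ ω ⊆ E, ∀ ω' ⊆ E, ω' ∩ T ω = ω ∩ T ω → X ω' = X ω

lemma Meas.mono {β : Sort*} {T T' : Finset α → Finset α} {X : Finset α → β} (h : Meas E T X)
    (hT : ∀ ω ⊆ E, T ω ⊆ T' ω) : Meas E T' X := by
  intro ω hω ω' hω' h1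
  apply h ω hω ω' hω'
  have := congrArg (· ∩ T ω) h1
  simp only [inter_assoc, inter_eq_right.2 (hT ω hω)] at this
  exact this

/-- agreement on a smaller region -/
lemma agree_mono {ω ω' A B : Finset α} (h : ω' ∩ B = ω ∩ B) (hAB : A ⊆ B) : ω' ∩ A = ω ∩ A := by
  have := congrArg (· ∩ A) h
  simp only [inter_assoc, inter_eq_right.2 hAB] at this
  exact this

lemma agree_iff {ω ω' A : Finset α} : ω' ∩ A = ω ∩ A ↔ ∀ x ∈ A, (x ∈ ω' ↔ x ∈ ω) := by
  constructor
  · intro h x hx
    have := congrArg (fun s => x ∈ s) h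
    simp only [mem_inter, hx, and_true, eq_iff_iff] at this
    exact this
  · intro h
    ext x
    simp only [mem_inter]
    constructor
    · rintro ⟨h1, h2⟩; exact ⟨(h x h2).1 h1, h2⟩
    · rintro ⟨h1, h2⟩; exact ⟨(h x h2).2 h1, h2⟩

/-- **Tower property.**  The stopping property is only needed on the fiber. -/
theorem tower {T : Finset α → Finset α}
    (hT : ∀ ω ⊆ E, ω ∩ S = ω₀ ∩ S → ∀ ω' ⊆ E, ω' ∩ S = ω₀ ∩ S → ω' ∩ T ω = ω ∩ T ω → T ω' = T ω)
    (hS : ∀ ω ⊆ E, ω ∩ S = ω₀ ∩ S → S ⊆ T ω) :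
    CX E S ω₀ F = CX E S ω₀ (fun ω => CX E (T ω) ω F) := by
  unfold CX
  congr 1
  set P := E.powerset.filter (fun ω => ω ∩ S = ω₀ ∩ S) with hP
  have hmem : ∀ ω, ω ∈ P ↔ ω ⊆ E ∧ ω ∩ S = ω₀ ∩ S := by
    intro ω; rw [hP, mem_filter, mem_powerset]
  -- rewrite the inner sums
  have e1 : ∀ ω ∈ P, (∑ ω' ∈ E.powerset.filter (fun ω' => ω' ∩ T ω = ω ∩ T ω), F ω') /
      2 ^ (E \ T ω).card =
      ∑ ω' ∈ P, if ω' ∩ T ω = ω ∩ T ω then F ω' / 2 ^ (E \ T ω).card else 0 := by
    intro ω hω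
    rw [hmem] at hω
    rw [sum_div, ← sum_filter]
    apply sum_congr _ fun _ _ => rfl
    ext ω'
    rw [mem_filter, mem_filter, mem_powerset, hmem]
    constructor
    · rintro ⟨h1, h2⟩
      exact ⟨⟨h1, (agree_mono h2 (hS ω hω.1 hω.2)).trans hω.2⟩, h2⟩
    · rintro ⟨h1, h2⟩
      exact ⟨h1.1, h2⟩
  rw [sum_congr rfl e1, sum_comm]
  apply sum_congr rfl
  intro ω' hω'
  rw [hmem] at hω'
  have e2 : ∀ ω ∈ P, (if ω' ∩ T ω = ω ∩ T ω then F ω' / 2 ^ (E \ T ω).card else 0) =
      (if ω ∩ T ω' = ω' ∩ T ω' then F ω' / 2 ^ (E \ T ω').card else 0) := by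
    intro ω hω
    rw [hmem] at hω
    by_cases h : ω' ∩ T ω = ω ∩ T ω
    · have h1 := hT ω hω.1 hω.2 ω' hω'.1 hω'.2 h
      rw [if_pos h, if_pos (by rw [h1]; exact h.symm), h1]
    · rw [if_neg h]
      by_cases h2 : ω ∩ T ω' = ω' ∩ T ω'
      · have h1 := hT ω' hω'.1 hω'.2 ω hω.1 hω.2 h2
        exact absurd (by rw [h1]; exact h2.symm) h
      · rw [if_neg h2]
  rw [sum_congr rfl e2, ← sum_filter, sum_const, nsmul_eq_mul]
  have e3 : P.filter (fun ω => ω ∩ T ω' = ω' ∩ T ω') =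
      E.powerset.filter (fun ω => ω ∩ T ω' = ω' ∩ T ω') := by
    ext ω
    rw [mem_filter, hmem, mem_filter, mem_powerset]
    constructor
    · rintro ⟨h1, h2⟩; exact ⟨h1.1, h2⟩
    · rintro ⟨h1, h2⟩
      exact ⟨⟨h1, (agree_mono h2 (hS ω' hω'.1 hω'.2)).trans hω'.2⟩, h2⟩
  rw [e3, card_fiber hω'.1]
  push_cast
  rw [mul_div_cancel₀]
  positivity

/-- Tower property for a stop `T` enlarged by a fixed region. -/
theorem tower_stop {T : Finset α → Finset α} (hT : IsStop E T) (H : Finset α)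
    (hS : ∀ ω ⊆ E, ω ∩ S = ω₀ ∩ S → S ⊆ T ω ∪ H) :
    CX E S ω₀ F = CX E S ω₀ (fun ω => CX E (T ω ∪ H) ω F) := by
  apply tower _ hS
  intro ω hω _ ω' hω' _ h
  rw [hT.stop ω hω ω' hω' (agree_mono h subset_union_left)]

/-- Revealing sites on which `F` does not depend changes nothing. -/
theorem CX_indep {W H : Finset α} (hE : ω₀ ⊆ E)
    (hF : ∀ ω ⊆ E, ω ∩ S = ω₀ ∩ S → ∀ ω' ⊆ E, ω' ∩ S = ω₀ ∩ S → ω' ∩ W = ω ∩ W → F ω' = F ω)
    (hWH : ∀ x ∈ H, x ∈ W → x ∈ S) : CX E (S ∪ H) ω₀ F = CX E S ω₀ F := by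
  have key : ∀ ω₁ ⊆ E, ω₁ ∩ S = ω₀ ∩ S → CX E (S ∪ H) ω₁ F = CX E (S ∪ H) ω₀ F := by
    intro ω₁ h1 h2
    unfold CX
    congr 1
    apply sum_nbij' (fun ω => (ω \ H) ∪ (ω₀ ∩ H)) (fun ω => (ω \ H) ∪ (ω₁ ∩ H))
    · intro ω hω
      rw [mem_filter, mem_powerset] at hω ⊢
      refine ⟨union_subset (sdiff_subset.trans hω.1) (inter_subset_left.trans hE), ?_⟩
      rw [agree_iff] at hω ⊢
      rw [agree_iff] at h2
      intro x hx
      simp only [mem_union, mem_sdiff, mem_inter]
      by_cases hxH : x ∈ H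
      · simp [hxH]
      · have hxS : x ∈ S := (mem_union.1 hx).resolve_right hxH
        have a1 := hω.2 x hx
        have a2 := h2 x hxS
        simp only [hxH, not_false_eq_true, and_true, and_false, or_false]
        exact a1.trans a2
    · intro ω hω
      rw [mem_filter, mem_powerset] at hω ⊢
      refine ⟨union_subset (sdiff_subset.trans hω.1) (inter_subset_left.trans h1), ?_⟩
      rw [agree_iff] at hω ⊢
      rw [agree_iff] at h2
      intro x hx
      simp only [mem_union, mem_sdiff, mem_inter]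
      by_cases hxH : x ∈ H
      · simp [hxH]
      · have hxS : x ∈ S := (mem_union.1 hx).resolve_right hxH
        have a1 := hω.2 x hx
        have a2 := h2 x hxS
        simp only [hxH, not_false_eq_true, and_true, and_false, or_false]
        exact a1.trans a2.symm
    · intro ω hω
      rw [mem_filter, mem_powerset, agree_iff] at hω
      ext x
      simp only [mem_union, mem_sdiff, mem_inter]
      by_cases hxH : x ∈ H
      · have := hω.2 x (mem_union_right _ hxH)
        simp only [hxH, not_true_eq_false, and_false, and_true, false_or]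
        exact this.symm
      · simp [hxH]
    · intro ω hω
      rw [mem_filter, mem_powerset, agree_iff] at hω
      ext x
      simp only [mem_union, mem_sdiff, mem_inter]
      by_cases hxH : x ∈ H
      · have := hω.2 x (mem_union_right _ hxH)
        simp only [hxH, not_true_eq_false, and_false, and_true, false_or]
        exact this.symm
      · simp [hxH]
    · intro ω hω
      rw [mem_filter, mem_powerset] at hω
      have hωS : ω ∩ S = ω₀ ∩ S := (agree_mono hω.2 subset_union_left).trans h2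
      symm
      apply hF ω hω.1 hωS _ (union_subset (sdiff_subset.trans hω.1) (inter_subset_left.trans hE))
      · rw [agree_iff] at hωS ⊢
        intro x hx
        simp only [mem_union, mem_sdiff, mem_inter]
        by_cases hxH : x ∈ H
        · simp [hxH]
        · simp only [hxH, not_false_eq_true, and_true, and_false, or_false]
          exact hωS x hx
      · rw [agree_iff]
        intro x hx
        simp only [mem_union, mem_sdiff, mem_inter]
        by_cases hxH : x ∈ H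
        · have hxS := hWH x hxH hx
          simp only [hxH, not_true_eq_false, and_false, and_true, false_or]
          exact ((agree_iff.1 hωS) x hxS).symm
        · simp [hxH]
  have t := tower (F := F) (E := E) (S := S) (ω₀ := ω₀) (T := fun _ => S ∪ H)
    (fun _ _ _ _ _ _ _ => rfl) (fun _ _ _ => subset_union_left)
  rw [t, CX_congr (G := fun _ => CX E (S ∪ H) ω₀ F) (fun ω h1 h2 => key ω h1 h2), CX_const hE]

end Pool.Agent.H75.Per
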