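import Mathlib

set_option autoImplicit false

/-! The real inequality behind one scale of the recursion (MP_2e6055). -/

namespace Pool.Agent.H75.Per

/-- The constants of the recursion. -/
structure Par where
  r : ℝ
  c0 : ℝ
  s0 : ℝ
  s3 : ℝ
  pK : ℝ
  th : ℝ
  kap : ℝ
  C0 : ℝ
  e : ℝ
  e1 : ℝ
  e2 : ℝ
  e3 : ℝ
  chi : ℝ

/-- The contraction factor. -/
noncomputable def Par.q (P : Par) : ℝ := 1 - P.th / 16

/-- The numerical conditions. -/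
structure Par.Ok (P : Par) : Prop where
  r1 : 1 ≤ P.r
  c0p : 0 < P.c0
  c01 : P.c0 ≤ 1
  s0p : 0 < P.s0
  s3p : 0 < P.s3
  pKp : 0 < P.pK
  pK1 : P.pK ≤ 1
  thd : P.th = P.c0 * P.pK / 16
  C01 : 1 ≤ P.C0
  kapp : 0 < P.kap
  kapd : 4 * P.C0 * P.kap ≤ P.th
  s0C : P.s0 * P.C0 ≤ 1 / 4
  e0 : 0 ≤ P.e
  e10 : 0 ≤ P.e1
  e20 : 0 ≤ P.e2
  e30 : 0 ≤ P.e3
  err : 2 * (2 * P.e + 2 * P.e1 + 6 * P.C0 * P.e2) ≤ P.kap
  chi0 : 0 ≤ P.chi
  chid : 8 * P.chi ≤ P.c0 * P.s3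
  chi1 : P.chi ≤ 1
  e3d : 40 * P.C0 * P.e3 ≤ P.c0 * P.s3

namespace Par.Ok

variable {P : Par} (h : P.Ok)
include h

lemma thp : 0 < P.th := by
  rw [h.thd]; have := h.c0p; have := h.pKp; positivity

lemma th1 : P.th ≤ 1 / 16 := by
  rw [h.thd]
  have : P.c0 * P.pK ≤ 1 := by nlinarith [h.c0p, h.c01, h.pKp, h.pK1]
  linarith

lemma q0 : 0 < P.q := by unfold Par.q; have := h.th1; linarith
lemma qhalf : 1 / 2 ≤ P.q := by unfold Par.q; have := h.th1; linarith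
lemma q1 : P.q ≤ 1 := by unfold Par.q; have := h.thp; linarith
lemma qlt : P.q < 1 := by unfold Par.q; have := h.thp; linarith

lemma kapC : P.kap * P.C0 ≤ P.th / 4 := by
  have := h.kapd
  linarith

lemma kap1 : P.kap ≤ 1 / 64 := by
  have h1 := h.kapC
  have h2 := h.th1
  have h3 := h.C01
  nlinarith [h.kapp]

end Par.Ok

lemma main_bound {th G e c0 Y s0 C0 e1 kap chi s3 e2 e3 V : ℝ} (thp : 0 < th) (th1 : th ≤ 1 / 16)
    (hG0 : 0 ≤ G) (hY : 0 ≤ Y) (c0p : 0 < c0) (s3p : 0 < s3) (s0C : s0 * C0 ≤ 1 / 4)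
    (C01 : 1 ≤ C0) (e0 : 0 ≤ e) (e10 : 0 ≤ e1) (e20 : 0 ≤ e2) (chid : 8 * chi ≤ c0 * s3)
    (chi1 : chi ≤ 1) (kapC : kap * C0 ≤ th / 4) (e3d : 40 * C0 * e3 ≤ c0 * s3)
    (hV1 : V ≤ (1 - th) * (G + 2 * e - c0 * Y) + (th * s0 + kap) * C0 * (G + e1) +
      chi * (Y / s3 + e2) + 5 * C0 * e2 + 5 * C0 * e3 * (Y / s3)) :
    V ≤ (1 - th / 2) * G - c0 / 4 * Y + (2 * e + 2 * e1 + 6 * C0 * e2) := by
  have hY1 : chi * (Y / s3) ≤ c0 / 8 * Y := by
    have h1 : chi / s3 ≤ c0 / 8 := by rw [div_le_iff₀ s3p]; linarith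
    have h2 : chi * (Y / s3) = chi / s3 * Y := by ring
    rw [h2]
    exact mul_le_mul_of_nonneg_right h1 hY
  have hY2 : 5 * C0 * e3 * (Y / s3) ≤ c0 / 8 * Y := by
    have h1 : 5 * C0 * e3 / s3 ≤ c0 / 8 := by rw [div_le_iff₀ s3p]; linarith
    have h2 : 5 * C0 * e3 * (Y / s3) = 5 * C0 * e3 / s3 * Y := by ring
    rw [h2]
    exact mul_le_mul_of_nonneg_right h1 hY
  have h2 : s0 * C0 * (G + e1) ≤ 1 / 4 * (G + e1) :=
    mul_le_mul_of_nonneg_right s0C (by linarith)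
  have h3 : th * (s0 * C0 * (G + e1)) ≤ th * (1 / 4 * (G + e1)) :=
    mul_le_mul_of_nonneg_left h2 thp.le
  have h3' : kap * C0 * (G + e1) ≤ th / 4 * (G + e1) :=
    mul_le_mul_of_nonneg_right kapC (by linarith)
  have h4 : th * e1 ≤ 1 * e1 := mul_le_mul_of_nonneg_right (by linarith) e10
  have h5 : th * (c0 * Y) ≤ 1 / 2 * (c0 * Y) :=
    mul_le_mul_of_nonneg_right (by linarith) (by positivity)
  have h6 : 0 ≤ th * e := by positivity
  have h7 : chi * e2 ≤ C0 * e2 := mul_le_mul_of_nonneg_right (by linarith) e20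
  have e1' : (1 - th) * (G + 2 * e - c0 * Y) = G - th * G + 2 * e - 2 * (th * e) - c0 * Y +
      th * (c0 * Y) := by ring
  have e2' : th * (1 / 4 * (G + e1)) = 1 / 4 * (th * G) + 1 / 4 * (th * e1) := by ring
  have e5' : th / 4 * (G + e1) = 1 / 4 * (th * G) + 1 / 4 * (th * e1) := by ring
  have e3' : chi * (Y / s3 + e2) = chi * (Y / s3) + chi * e2 := by ring
  have e4' : (1 - th / 2) * G = G - 1 / 2 * (th * G) := by ring
  have e6' : (th * s0 + kap) * C0 * (G + e1) = th * (s0 * C0 * (G + e1)) +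
      kap * C0 * (G + e1) := by ring
  rw [e1', e3', e6'] at hV1
  rw [e4']
  rw [e2'] at h3
  rw [e5'] at h3'
  linarith

/-- **One scale.** -/
theorem step_arith {P : Par} (h : P.Ok) {G Y V : ℝ} (hG0 : 0 ≤ G) (hG4 : G ≤ 4) (hY : 0 ≤ Y)
    (hV1 : V ≤ (1 - P.th) * (G + 2 * P.e - P.c0 * Y) + (P.th * P.s0 + P.kap) * P.C0 * (G + P.e1) +
      P.chi * (Y / P.s3 + P.e2) + 5 * P.C0 * P.e2 + 5 * P.C0 * P.e3 * (Y / P.s3))
    (hc : P.s0 ≤ G → P.pK ≤ Y) :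
    V ≤ P.q * (G * (1 - P.th * (if P.s0 ≤ G then 1 else 0)) + P.kap) := by
  have thp := h.thp
  have th1 := h.th1
  have kapp := h.kapp
  have C01 := h.C01
  have c0p := h.c0p
  have thd := h.thd
  have qh := h.qhalf
  have herr := h.err
  have hB := main_bound thp th1 hG0 hY c0p h.s3p h.s0C C01 h.e0 h.e10 h.e20 h.chid h.chi1
    h.kapC h.e3d hV1
  have hq : 1 / 2 * P.kap ≤ P.q * P.kap := mul_le_mul_of_nonneg_right qh kapp.le
  have hcY : 0 ≤ P.c0 / 4 * Y := by positivity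
  have tG : 0 ≤ P.th * G := by positivity
  have e4' : (1 - P.th / 2) * G = G - 1 / 2 * (P.th * G) := by ring
  rw [e4'] at hB
  rw [mul_add]
  by_cases hcen : P.s0 ≤ G
  · rw [if_pos hcen]
    have hYK := hc hcen
    have k5 : P.c0 / 4 * P.pK ≤ P.c0 / 4 * Y := mul_le_mul_of_nonneg_left hYK (by positivity)
    have k6 : P.c0 / 4 * P.pK = 4 * P.th := by rw [thd]; ring
    have k8 : P.th * G ≤ P.th * 4 := mul_le_mul_of_nonneg_left hG4 thp.le
    have k10 : 0 ≤ P.th * P.th * G := by positivity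
    have k9 : P.q * (G * (1 - P.th * 1)) =
        G - 17 / 16 * (P.th * G) + 1 / 16 * (P.th * P.th * G) := by
      unfold Par.q; ring
    rw [k9]
    linarith
  · rw [if_neg hcen]
    have k9 : P.q * (G * (1 - P.th * 0)) = G - 1 / 16 * (P.th * G) := by unfold Par.q; ring
    rw [k9]
    linarith

end Pool.Agent.H75.Per
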