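import Mathlib
import Pool.Agent.H75.Per.Cond
import Pool.Agent.H75.Per.Arith

set_option autoImplicit false

/-!
# The recursion over scales for one site (MP_2e6055, module REC)

`E` = the unexplored faces, `ω ⊆ E` uniform.  For a fixed site `v`:
`T k ω` = faces revealed by the plain exploration at the time `σ_k` (first visit of `B(v, ρ_k)`; at the
end of the exploration if this never happens), `alive k ω` = it happens; `A k ω` = faces revealed at the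
time of the attempt of scale `k`, `made k ω` = the attempt is made, before `σ_{k+1}`; `Fr k ω` = the
mouth region, `succ k ω` = the attempt succeeds; `far k` = faces outside `B(v, L ρ_k)`.
Potentials, normalised: `G k` at `σ_k`, `GA k` at the attempt of scale `k` (both in units
`ρ_k^{-1/4}`).
-/

namespace Pool.Agent.H75.Per

open Finset Classical

variable {α : Type*}

/-- The data. -/
structure Sys (E : Finset α) where
  T : ℕ → Finset α → Finset α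
  A : ℕ → Finset α → Finset α
  alive : ℕ → Finset α → Prop
  made : ℕ → Finset α → Prop
  Fr : ℕ → Finset α → Finset α
  succ : ℕ → Finset α → Prop
  far : ℕ → Finset α
  stopT : ∀ k, IsStop E (T k)
  stopA : ∀ k, IsStop E (A k)
  TE : ∀ k, ∀ ω ⊆ E, T k ω ⊆ E
  TA : ∀ k, ∀ ω ⊆ E, T k ω ⊆ A k ω
  AT : ∀ k, ∀ ω ⊆ E, A k ω ⊆ T (k + 1) ω
  mAlive : ∀ k, Meas E (T k) (alive k)
  mMade : ∀ k, Meas E (A k) (made k)
  mFr : ∀ k, Meas E (A k) (Fr k)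
  mSucc : ∀ k, Meas E (fun ω => A k ω ∪ Fr k ω) (succ k)
  aliveS : ∀ k, ∀ ω ⊆ E, alive (k + 1) ω → alive k ω
  madeA : ∀ k, ∀ ω ⊆ E, made k ω → alive k ω
  FrFar : ∀ k, ∀ ω ⊆ E, made k ω → Fr k ω ⊆ far (k + 1)
  FrNear : ∀ k, ∀ ω ⊆ E, made k ω → Disjoint (far k) (Fr k ω)
  farMono : ∀ k, far k ⊆ far (k + 1)

variable {E : Finset α}

/-- The cost from scale `k` on, `n` more scales. -/
noncomputable def Sys.J (Y : Sys E) (ch : ℕ → ℝ) : ℕ → ℕ → Finset α → ℝ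
  | 0, k, ω => I (Y.alive k ω)
  | n + 1, k, ω => ch k * I (Y.made k ω) +
      (1 - I (Y.made k ω ∧ Y.succ k ω)) * Sys.J Y ch n (k + 1) ω

/-- the exploration stays near `v` between `σ_k` and `σ_{k+1}` -/
def Sys.NL (Y : Sys E) (k : ℕ) (ω : Finset α) : Prop := Disjoint (Y.T (k + 1) ω \ Y.T k ω) (Y.far k)
/-- the exploration stays near `v` between `σ_k` and the attempt -/
def Sys.NLA (Y : Sys E) (k : ℕ) (ω : Finset α) : Prop := Disjoint (Y.A k ω \ Y.T k ω) (Y.far k)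
/-- the exploration does not touch the mouth region before `σ_{k+1}` -/
def Sys.NT (Y : Sys E) (k : ℕ) (ω : Finset α) : Prop := Disjoint (Y.T (k + 1) ω) (Y.Fr k ω)

/-- The quantitative input for the scale `k`. -/
structure Sys.In (Y : Sys E) (P : Par) (G GA : ℕ → Finset α → ℝ) (k : ℕ) : Prop where
  mG' : Meas E (Y.T (k + 1)) (G (k + 1))
  G0 : ∀ ω ⊆ E, 0 ≤ G k ω
  G4 : ∀ ω ⊆ E, G k ω ≤ 4
  G0' : ∀ ω ⊆ E, 0 ≤ G (k + 1) ω
  G4' : ∀ ω ⊆ E, G (k + 1) ω ≤ 4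
  GA0 : ∀ ω ⊆ E, 0 ≤ GA k ω
  /-- the attempts are made in central positions -/
  cen : ∀ ω ⊆ E, Y.made k ω → P.s3 ≤ GA k ω
  /-- (OS), stopping at the attempt -/
  os1 : ∀ ω ⊆ E, Y.alive k ω → CX E (Y.T k ω) ω (fun ω' => I (Y.made k ω') * GA k ω' +
    I (Y.alive (k + 1) ω' ∧ ¬ Y.made k ω') * (P.r * G (k + 1) ω')) ≤ G k ω + P.e
  /-- (OS), from the attempt -/
  os2 : ∀ ω ⊆ E, Y.made k ω → CX E (Y.A k ω) ω (fun ω' => I (Y.alive (k + 1) ω') *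
    (P.r * G (k + 1) ω')) ≤ GA k ω + P.e
  /-- (OS') -/
  f4 : ∀ ω ⊆ E, Y.alive k ω → CX E (Y.T k ω) ω
    (fun ω' => I (Y.alive (k + 1) ω')) ≤ P.C0 / P.r * (G k ω + P.e1)
  /-- (LR): leave `B(v, L ρ_k)` and come back; `H` is adversarial -/
  lr : ∀ ω ⊆ E, Y.alive k ω → ∀ H ⊆ Y.far k, CX E (Y.T k ω ∪ H) ω
    (fun ω' => I (Y.alive (k + 1) ω' ∧ ¬ Y.NL k ω')) ≤ P.C0 / P.r * P.e2
  lrA : ∀ ω ⊆ E, Y.alive k ω → ∀ H ⊆ Y.far k, CX E (Y.T k ω ∪ H) ω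
    (fun ω' => I (Y.made k ω' ∧ ¬ Y.NLA k ω')) ≤ P.e2
  /-- touch the mouth region and come back to `v` -/
  touch : ∀ ω ⊆ E, Y.made k ω → ∀ H ⊆ Y.far k, CX E (Y.A k ω ∪ (Y.Fr k ω ∪ H)) ω
    (fun ω' => I (Y.alive (k + 1) ω' ∧ ¬ Y.NT k ω')) ≤ P.C0 / P.r * P.e3
  /-- success -/
  suc : ∀ ω ⊆ E, Y.made k ω → P.c0 ≤ CX E (Y.A k ω) ω (fun ω' => I (Y.succ k ω'))
  /-- a pocket from every central state -/
  f5 : ∀ ω ⊆ E, Y.alive k ω → P.s0 ≤ G k ω →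
    P.pK ≤ CX E (Y.T k ω) ω (fun ω' => I (Y.made k ω' ∧ Y.NLA k ω') * GA k ω')

/-- The bound. -/
noncomputable def Phi (P : Par) (G : ℝ) : ℝ :=
  G * (1 - P.th * (if P.s0 ≤ G then 1 else 0)) + P.kap

lemma Phi_nonneg {P : Par} (h : P.Ok) {G : ℝ} (hG : 0 ≤ G) : 0 ≤ Phi P G := by
  unfold Phi
  have h1 := h.th1
  have h2 := h.kapp
  have h3 := h.thp
  apply add_nonneg _ h2.le
  apply mul_nonneg hG; split_ifs <;> linarith

lemma kap_le_Phi {P : Par} (h : P.Ok) {G : ℝ} (hG : 0 ≤ G) : P.kap ≤ Phi P G := by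
  unfold Phi
  have h1 := h.th1
  have h3 := h.thp
  have : 0 ≤ G * (1 - P.th * (if P.s0 ≤ G then 1 else 0)) := by
    apply mul_nonneg hG; split_ifs <;> linarith
  linarith

lemma Phi_le {P : Par} (h : P.Ok) {G : ℝ} (hG : 0 ≤ G) (hG4 : G ≤ 4) : Phi P G ≤ 5 := by
  unfold Phi
  have h1 := h.th1
  have h3 := h.thp
  have h4 := h.kap1
  have h7 : G * (1 - P.th * (if P.s0 ≤ G then 1 else 0)) ≤ G := by
    apply mul_le_of_le_one_right hG; split_ifs <;> linarith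
  linarith

variable {Y : Sys E} {P : Par} {G GA : ℕ → Finset α → ℝ} {k : ℕ}

lemma I_eq {a b : Prop} (h : a = b) : I a = I b := by rw [h]

/-- pulling out a factor that is constant on the fiber -/
lemma CX_pull {S ω₀ : Finset α} {g F : Finset α → ℝ} {c : ℝ}
    (h : ∀ ω ⊆ E, ω ∩ S = ω₀ ∩ S → g ω = c) :
    CX E S ω₀ (fun ω => g ω * F ω) = c * CX E S ω₀ F := by
  rw [← CX_smul]
  apply CX_congr
  intro ω h1 h2
  rw [h ω h1 h2]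

section step

variable {ω₀ H : Finset α}

/-- On the fiber of `T k ω₀` the region `T k` is constant. -/
lemma T_fiber (hω : ω₀ ⊆ E) {ω S : Finset α} (hωE : ω ⊆ E) (hS : Y.T k ω₀ ⊆ S)
    (h : ω ∩ S = ω₀ ∩ S) : Y.T k ω = Y.T k ω₀ :=
  (Y.stopT k).stop ω₀ hω ω hωE (agree_mono h hS)

/-- If `NL` then the region revealed at `σ_{k+1}` is determined by the faces near `v`. -/
lemma local_T (hω : ω₀ ⊆ E) {ω ω' : Finset α} (h1 : ω ⊆ E) (h2 : ω ∩ Y.T k ω₀ = ω₀ ∩ Y.T k ω₀)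
    (h2' : ω' ∩ Y.T k ω₀ = ω₀ ∩ Y.T k ω₀)
    (hW : ω' ∩ (E \ Y.far k) = ω ∩ (E \ Y.far k)) (hNL : Y.NL k ω) :
    ω' ∩ Y.T (k + 1) ω = ω ∩ Y.T (k + 1) ω := by
  rw [agree_iff] at h2 h2' hW ⊢
  intro x hx
  have e1 : Y.T k ω = Y.T k ω₀ := T_fiber hω h1 (Subset.refl _) (agree_iff.2 h2)
  by_cases hxT : x ∈ Y.T k ω₀
  · exact (h2' x hxT).trans (h2 x hxT).symm
  · apply hW
    rw [mem_sdiff]
    refine ⟨Y.TE (k + 1) ω h1 hx, fun hf => ?_⟩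
    unfold Sys.NL at hNL
    rw [disjoint_left] at hNL
    exact hNL (by rw [mem_sdiff, e1]; exact ⟨hx, hxT⟩) hf

lemma local_A (hω : ω₀ ⊆ E) {ω ω' : Finset α} (h1 : ω ⊆ E) (h2 : ω ∩ Y.T k ω₀ = ω₀ ∩ Y.T k ω₀)
    (h2' : ω' ∩ Y.T k ω₀ = ω₀ ∩ Y.T k ω₀)
    (hW : ω' ∩ (E \ Y.far k) = ω ∩ (E \ Y.far k)) (hNL : Y.NLA k ω) :
    ω' ∩ Y.A k ω = ω ∩ Y.A k ω := by
  rw [agree_iff] at h2 h2' hW ⊢
  intro x hx
  have e1 : Y.T k ω = Y.T k ω₀ := T_fiber hω h1 (Subset.refl _) (agree_iff.2 h2)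
  by_cases hxT : x ∈ Y.T k ω₀
  · exact (h2' x hxT).trans (h2 x hxT).symm
  · apply hW
    rw [mem_sdiff]
    refine ⟨Y.TE (k + 1) ω h1 (Y.AT k ω h1 hx), fun hf => ?_⟩
    unfold Sys.NLA at hNL
    rw [disjoint_left] at hNL
    exact hNL (by rw [mem_sdiff, e1]; exact ⟨hx, hxT⟩) hf

/-- A functional that vanishes off `NL` and is determined by `T (k+1)` does not see the adversary. -/
lemma no_adv (hω : ω₀ ⊆ E) (hH : H ⊆ Y.far k) {X : Finset α → ℝ} (hX : Meas E (Y.T (k + 1)) X)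
    (h0 : ∀ ω ⊆ E, ¬ Y.NL k ω → X ω = 0) :
    CX E (Y.T k ω₀ ∪ H) ω₀ X = CX E (Y.T k ω₀) ω₀ X := by
  apply CX_indep (W := E \ Y.far k) hω
  · intro ω h1 h2 ω' h1' h2' hW
    have key : ∀ ω ⊆ E, ω ∩ Y.T k ω₀ = ω₀ ∩ Y.T k ω₀ → ∀ ω' ⊆ E, ω' ∩ Y.T k ω₀ = ω₀ ∩ Y.T k ω₀ →
        ω' ∩ (E \ Y.far k) = ω ∩ (E \ Y.far k) → Y.NL k ω → X ω' = X ω :=
      fun ω h1 h2 ω' h1' h2' hW hn => hX ω h1 ω' h1' (local_T hω h1 h2 h2' hW hn)
    by_cases hn : Y.NL k ω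
    · exact key ω h1 h2 ω' h1' h2' hW hn
    · by_cases hn' : Y.NL k ω'
      · exact (key ω' h1' h2' ω h1 h2 hW.symm hn').symm
      · rw [h0 ω h1 hn, h0 ω' h1' hn']
  · intro x hx hx'
    exact absurd (hH hx) (mem_sdiff.1 hx').2

lemma no_advA (hω : ω₀ ⊆ E) (hH : H ⊆ Y.far k) {X : Finset α → ℝ} (hX : Meas E (Y.A k) X)
    (h0 : ∀ ω ⊆ E, ¬ Y.NLA k ω → X ω = 0) :
    CX E (Y.T k ω₀ ∪ H) ω₀ X = CX E (Y.T k ω₀) ω₀ X := by
  apply CX_indep (W := E \ Y.far k) hω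
  · intro ω h1 h2 ω' h1' h2' hW
    have key : ∀ ω ⊆ E, ω ∩ Y.T k ω₀ = ω₀ ∩ Y.T k ω₀ → ∀ ω' ⊆ E, ω' ∩ Y.T k ω₀ = ω₀ ∩ Y.T k ω₀ →
        ω' ∩ (E \ Y.far k) = ω ∩ (E \ Y.far k) → Y.NLA k ω → X ω' = X ω :=
      fun ω h1 h2 ω' h1' h2' hW hn => hX ω h1 ω' h1' (local_A hω h1 h2 h2' hW hn)
    by_cases hn : Y.NLA k ω
    · exact key ω h1 h2 ω' h1' h2' hW hn
    · by_cases hn' : Y.NLA k ω'
      · exact (key ω' h1' h2' ω h1 h2 hW.symm hn').symm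
      · rw [h0 ω h1 hn, h0 ω' h1' hn']
  · intro x hx hx'
    exact absurd (hH hx) (mem_sdiff.1 hx').2

/-- measurability of `NL`, `NLA`, `NT` -/
lemma mNL (k : ℕ) : Meas E (Y.T (k + 1)) (Y.NL k) := by
  intro ω h1 ω' h1' h
  unfold Sys.NL
  rw [(Y.stopT (k + 1)).stop ω h1 ω' h1' h,
    (Y.stopT k).stop ω h1 ω' h1' (agree_mono h ((Y.TA k ω h1).trans (Y.AT k ω h1)))]

lemma mNLA (k : ℕ) : Meas E (Y.A k) (Y.NLA k) := by
  intro ω h1 ω' h1' h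
  unfold Sys.NLA
  rw [(Y.stopA k).stop ω h1 ω' h1' h, (Y.stopT k).stop ω h1 ω' h1' (agree_mono h (Y.TA k ω h1))]

lemma mNT (k : ℕ) : Meas E (Y.T (k + 1)) (Y.NT k) := by
  intro ω h1 ω' h1' h
  unfold Sys.NT
  rw [(Y.stopT (k + 1)).stop ω h1 ω' h1' h, Y.mFr k ω h1 ω' h1' (agree_mono h (Y.AT k ω h1))]

lemma NL_NLA {ω : Finset α} (h1 : ω ⊆ E) (h : Y.NL k ω) : Y.NLA k ω := by
  unfold Sys.NL at h
  unfold Sys.NLA
  exact h.mono_left (sdiff_subset_sdiff (Y.AT k ω h1) (Subset.refl _))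

/-- success has probability at least `c0` given any region that contains `A k` and misses `Fr k` -/
lemma suc_of (hin : Y.In P G GA k) {ω R : Finset α} (h1 : ω ⊆ E) (hm : Y.made k ω)
    (hR : Y.A k ω ⊆ R) (hd : Disjoint R (Y.Fr k ω)) :
    P.c0 ≤ CX E R ω (fun ω' => I (Y.succ k ω')) := by
  have e : CX E (Y.A k ω ∪ R) ω (fun ω' => I (Y.succ k ω')) =
      CX E (Y.A k ω) ω (fun ω' => I (Y.succ k ω')) := by
    apply CX_indep (W := Y.Fr k ω) h1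
    · intro ω1 a1 a2 ω2 b1 b2 hW
      apply I_eq
      have e1 : Y.A k ω1 = Y.A k ω := (Y.stopA k).stop ω h1 ω1 a1 a2
      have e2 : Y.Fr k ω1 = Y.Fr k ω := Y.mFr k ω h1 ω1 a1 a2
      apply Y.mSucc k ω1 a1 ω2 b1
      show ω2 ∩ (Y.A k ω1 ∪ Y.Fr k ω1) = ω1 ∩ (Y.A k ω1 ∪ Y.Fr k ω1)
      rw [e1, e2, inter_union_distrib_left, inter_union_distrib_left, a2, b2, hW]
    · intro x hx hx'
      exact absurd hx' (disjoint_left.1 hd hx)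
  rw [union_eq_right.2 hR] at e
  rw [e]
  exact hin.suc ω h1 hm

end step

end Pool.Agent.H75.Per
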