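import Mathlib
import Pool.Agent.H75.Per.Rec

set_option autoImplicit false

/-! One scale of the recursion (MP_2e6055, module REC). -/

namespace Pool.Agent.H75.Per

open Finset Classical

variable {α : Type*} {E : Finset α}

/-- the mouth region, empty if there is no attempt -/
noncomputable def Sys.FM (Y : Sys E) (k : ℕ) (ω : Finset α) : Finset α :=
  if Y.made k ω then Y.Fr k ω else ∅

variable {Y : Sys E} {P : Par} {G GA : ℕ → Finset α → ℝ} {k : ℕ} {ch : ℕ → ℝ}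

lemma mFM (k : ℕ) : Meas E (Y.A k) (Y.FM k) := by
  intro ω h1 ω' h1' h
  unfold Sys.FM
  rw [Y.mMade k ω h1 ω' h1' h, Y.mFr k ω h1 ω' h1' h]

lemma FM_far {ω : Finset α} (h1 : ω ⊆ E) : Y.FM k ω ⊆ Y.far (k + 1) := by
  unfold Sys.FM
  split_ifs with h
  · exact Y.FrFar k ω h1 h
  · exact empty_subset _

lemma J_nonneg (hch : ∀ k, 0 ≤ ch k) : ∀ (n k : ℕ) (ω : Finset α), 0 ≤ Y.J ch n k ω := by
  intro n
  induction n with
  | zero => intro k ω; exact I_nonneg _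
  | succ n ih =>
    intro k ω
    show 0 ≤ ch k * I (Y.made k ω) + (1 - I (Y.made k ω ∧ Y.succ k ω)) * Y.J ch n (k + 1) ω
    have h1 := I_le_one (Y.made k ω ∧ Y.succ k ω)
    exact add_nonneg (mul_nonneg (hch k) (I_nonneg _)) (mul_nonneg (by linarith) (ih _ _))

lemma J_dead {ω : Finset α} (hω : ω ⊆ E) : ∀ (n k : ℕ), ¬ Y.alive k ω → Y.J ch n k ω = 0 := by
  intro n
  induction n with
  | zero => intro k h; exact I_false h
  | succ n ih =>
    intro k h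
    show ch k * I (Y.made k ω) + (1 - I (Y.made k ω ∧ Y.succ k ω)) * Y.J ch n (k + 1) ω = 0
    rw [ih (k + 1) (fun h' => h (Y.aliveS k ω hω h')), I_false (fun h' => h (Y.madeA k ω hω h'))]
    ring

/-- general tower -/
lemma tower_gen {T' H' : Finset α → Finset α} {S ω₀ : Finset α} {F : Finset α → ℝ}
    (hT : IsStop E T') (hH : Meas E T' H')
    (hS : ∀ ω ⊆ E, ω ∩ S = ω₀ ∩ S → S ⊆ T' ω ∪ H' ω) :
    CX E S ω₀ F = CX E S ω₀ (fun ω => CX E (T' ω ∪ H' ω) ω F) := by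
  apply tower _ hS
  intro ω hω _ ω' hω' _ h
  have h1 := agree_mono h (subset_union_left (s₁ := T' ω) (s₂ := H' ω))
  rw [hT.stop ω hω ω' hω' h1, hH ω hω ω' hω' h1]

lemma T_sub_T' {ω : Finset α} (h : ω ⊆ E) : Y.T k ω ⊆ Y.T (k + 1) ω :=
  (Y.TA k ω h).trans (Y.AT k ω h)

section step

variable {ω₀ H : Finset α}

lemma sub1 (hω : ω₀ ⊆ E) (ω : Finset α) (h1 : ω ⊆ E)
    (h2 : ω ∩ (Y.T k ω₀ ∪ H) = ω₀ ∩ (Y.T k ω₀ ∪ H)) : Y.T k ω₀ = Y.T k ω :=
  (T_fiber hω h1 subset_union_left h2).symm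

lemma tower_T (hω : ω₀ ⊆ E) (H' : Finset α → Finset α) (hH' : Meas E (Y.T (k + 1)) H')
    (hHH : ∀ ω ⊆ E, H ⊆ H' ω) (F : Finset α → ℝ) :
    CX E (Y.T k ω₀ ∪ H) ω₀ F =
      CX E (Y.T k ω₀ ∪ H) ω₀ (fun ω => CX E (Y.T (k + 1) ω ∪ H' ω) ω F) := by
  apply tower_gen (Y.stopT (k + 1)) hH'
  intro ω h1 h2
  rw [sub1 hω ω h1 h2]
  exact union_subset_union (T_sub_T' h1) (hHH ω h1)

lemma tower_A (hω : ω₀ ⊆ E) (H' : Finset α → Finset α) (hH' : Meas E (Y.A k) H')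
    (hHH : ∀ ω ⊆ E, H ⊆ H' ω) (F : Finset α → ℝ) :
    CX E (Y.T k ω₀ ∪ H) ω₀ F =
      CX E (Y.T k ω₀ ∪ H) ω₀ (fun ω => CX E (Y.A k ω ∪ H' ω) ω F) := by
  apply tower_gen (Y.stopA k) hH'
  intro ω h1 h2
  rw [sub1 hω ω h1 h2]
  exact union_subset_union (Y.TA k ω h1) (hHH ω h1)

/-- measurable factors come out -/
lemma pull_meas {T' : Finset α → Finset α} {S ω : Finset α} {g F : Finset α → ℝ} (hω : ω ⊆ E)
    (hg : Meas E T' g) (hS : T' ω ⊆ S) :
    CX E S ω (fun ω' => g ω' * F ω') = g ω * CX E S ω F := by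
  apply CX_pull
  intro ω' h1 h2
  exact hg ω hω ω' h1 (agree_mono h2 hS)

lemma Meas_I {T' : Finset α → Finset α} {X : Finset α → Prop} (h : Meas E T' X) :
    Meas E T' (fun ω => I (X ω)) := by
  intro ω h1 ω' h1' h2
  show I (X ω') = I (X ω)
  rw [h ω h1 ω' h1' h2]

lemma A_T (k : ℕ) {β : Sort*} {X : Finset α → β} (h : Meas E (Y.A k) X) :
    Meas E (Y.T (k + 1)) X := h.mono (Y.AT k)

lemma T_T (k : ℕ) {β : Sort*} {X : Finset α → β} (h : Meas E (Y.T k) X) :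
    Meas E (Y.T (k + 1)) X := h.mono fun _ h1 => T_sub_T' h1

/-- the induction hypothesis for the next scale -/
def IHn (Y : Sys E) (P : Par) (G : ℕ → Finset α → ℝ) (ch : ℕ → ℝ) (n k : ℕ) (c : ℝ) : Prop :=
  ∀ ω₀ ⊆ E, ∀ H ⊆ Y.far k, CX E (Y.T k ω₀ ∪ H) ω₀ (Y.J ch n k) ≤
    c * (I (Y.alive k ω₀) * Phi P (G k ω₀))

/-- bound of the cost on a `T (k+1)`-measurable event -/
lemma bound_event (h : P.Ok) (hin : Y.In P G GA k) {c' : ℝ} (hc' : 0 ≤ c') {n : ℕ}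
    (hIH : IHn Y P G ch n (k + 1) c') (hω : ω₀ ⊆ E) (hH : H ⊆ Y.far k)
    {X : Finset α → Prop} (hX : Meas E (Y.T (k + 1)) X) :
    CX E (Y.T k ω₀ ∪ H) ω₀ (fun ω => I (X ω) * Y.J ch n (k + 1) ω) ≤
      c' * 5 * CX E (Y.T k ω₀ ∪ H) ω₀ (fun ω => I (Y.alive (k + 1) ω ∧ X ω)) := by
  rw [tower_T hω (fun _ => H) (fun _ _ _ _ _ => rfl) (fun _ _ => Subset.refl _), ← CX_smul]
  apply CX_mono
  intro ω h1 _
  rw [pull_meas h1 (Meas_I hX) subset_union_left, I_and]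
  have h3 := hIH ω h1 H (hH.trans (Y.farMono k))
  have h4 : Phi P (G (k + 1) ω) ≤ 5 :=
    Phi_le h (hin.G0' ω h1) (hin.G4' ω h1)
  have h5 := I_nonneg (Y.alive (k + 1) ω)
  have h6 := I_nonneg (X ω)
  calc I (X ω) * CX E (Y.T (k + 1) ω ∪ H) ω (Y.J ch n (k + 1))
      ≤ I (X ω) * (c' * (I (Y.alive (k + 1) ω) * Phi P (G (k + 1) ω))) :=
        mul_le_mul_of_nonneg_left h3 h6
    _ ≤ I (X ω) * (c' * (I (Y.alive (k + 1) ω) * 5)) := by gcongr
    _ = c' * 5 * (I (Y.alive (k + 1) ω) * I (X ω)) := by ring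

/-- the attempts are rare in terms of the potential -/
lemma made_le (h : P.Ok) (hin : Y.In P G GA k) (hω : ω₀ ⊆ E) (hH : H ⊆ Y.far k) :
    CX E (Y.T k ω₀ ∪ H) ω₀ (fun ω => I (Y.made k ω ∧ Y.NLA k ω)) ≤
      CX E (Y.T k ω₀) ω₀ (fun ω => I (Y.made k ω ∧ Y.NLA k ω) * GA k ω) / P.s3 := by
  have m1 : Meas E (Y.A k) (fun ω => I (Y.made k ω ∧ Y.NLA k ω)) := by
    apply Meas_I
    intro ω h1 ω' h1' h2
    show (Y.made k ω' ∧ Y.NLA k ω') = (Y.made k ω ∧ Y.NLA k ω)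
    rw [Y.mMade k ω h1 ω' h1' h2, mNLA k ω h1 ω' h1' h2]
  rw [no_advA hω hH m1 (fun ω _ hn => I_false (fun h' => hn h'.2)), le_div_iff₀ h.s3p, mul_comm,
    ← CX_smul]
  apply CX_mono
  intro ω h1 _
  by_cases hm : Y.made k ω ∧ Y.NLA k ω
  · rw [I_true hm, mul_one, one_mul]
    exact hin.cen ω h1 hm.1
  · rw [I_false hm, mul_zero, zero_mul]

/-- the main term -/
lemma main_term (h : P.Ok) (hin : Y.In P G GA k) (hω : ω₀ ⊆ E) (hal : Y.alive k ω₀) :
    P.r * CX E (Y.T k ω₀) ω₀ (fun ω => I (Y.NL k ω) * (I (Y.alive (k + 1) ω) *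
      (Phi P (G (k + 1) ω) * (1 - P.c0 * I (Y.made k ω))))) ≤
    (1 - P.th) * (G k ω₀ + 2 * P.e - P.c0 *
      CX E (Y.T k ω₀) ω₀ (fun ω => I (Y.made k ω ∧ Y.NLA k ω) * GA k ω)) +
      (P.th * P.s0 + P.kap) * P.C0 * (G k ω₀ + P.e1) := by
  have hr : 0 < P.r := by linarith [h.r1]
  have th0 := h.thp
  have th1 := h.th1
  have c0p := h.c0p
  have c01 := h.c01
  -- pointwise bound
  have pt : ∀ ω ⊆ E, I (Y.NL k ω) * (I (Y.alive (k + 1) ω) *
      (Phi P (G (k + 1) ω) * (1 - P.c0 * I (Y.made k ω)))) ≤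
      ((1 - P.th) * (I (Y.alive (k + 1) ω) * (G (k + 1) ω * (1 - P.c0 * I (Y.made k ω ∧ Y.NLA k ω))))
        + (P.th * P.s0 + P.kap) * I (Y.alive (k + 1) ω)) := by
    intro ω h1
    by_cases ha : Y.alive (k + 1) ω
    · rw [I_true ha, one_mul, one_mul, mul_one]
      have g0 := hin.G0' ω h1
      have q0 : 0 ≤ (1 - P.c0 * I (Y.made k ω ∧ Y.NLA k ω)) := by
        have := I_le_one (Y.made k ω ∧ Y.NLA k ω)
        have := I_nonneg (Y.made k ω ∧ Y.NLA k ω)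
        nlinarith
      have q1 : (1 - P.c0 * I (Y.made k ω ∧ Y.NLA k ω)) ≤ 1 := by
        have := I_nonneg (Y.made k ω ∧ Y.NLA k ω)
        nlinarith
      have hphi : Phi P (G (k + 1) ω) ≤
          (1 - P.th) * G (k + 1) ω + (P.th * P.s0 + P.kap) := by
        unfold Phi
        have h7 : G (k + 1) ω * (1 - P.th * (if P.s0 ≤ G (k + 1) ω then 1 else 0)) ≤
            (1 - P.th) * G (k + 1) ω + P.th * P.s0 := by
          have := h.s0p
          split_ifs with hs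
          · have : 0 ≤ P.th * P.s0 := by positivity
            linarith
          · have : P.th * G (k + 1) ω ≤ P.th * P.s0 :=
              mul_le_mul_of_nonneg_left (not_le.1 hs).le th0.le
            linarith
        linarith
      have hphi0 : 0 ≤ Phi P (G (k + 1) ω) := Phi_nonneg h g0
      by_cases hn : Y.NL k ω
      · rw [I_true hn, one_mul]
        have hnla := NL_NLA h1 hn
        have e1 : I (Y.made k ω ∧ Y.NLA k ω) = I (Y.made k ω) := by
          rw [I_and, I_true hnla, mul_one]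
        rw [e1] at q0 q1 ⊢
        have hx : 0 ≤ P.th * P.s0 + P.kap := by
          have := h.s0p
          have := h.kapp
          positivity
        calc Phi P (G (k + 1) ω) * (1 - P.c0 * I (Y.made k ω))
            ≤ ((1 - P.th) * G (k + 1) ω + (P.th * P.s0 + P.kap)) * (1 - P.c0 * I (Y.made k ω)) :=
              mul_le_mul_of_nonneg_right hphi q0
          _ = (1 - P.th) * (G (k + 1) ω * (1 - P.c0 * I (Y.made k ω))) +
              (P.th * P.s0 + P.kap) * (1 - P.c0 * I (Y.made k ω)) := by ring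
          _ ≤ _ := by
              have := mul_le_mul_of_nonneg_left q1 hx
              linarith
      · rw [I_false hn, zero_mul]
        have hx : 0 ≤ P.th * P.s0 + P.kap := by
          have := h.s0p
          have := h.kapp
          positivity
        have : 0 ≤ (1 - P.th) * (G (k + 1) ω * (1 - P.c0 * I (Y.made k ω ∧ Y.NLA k ω))) :=
          mul_nonneg (by linarith) (mul_nonneg g0 q0)
        linarith
    · rw [I_false ha]
      simp
  have hX1 := CX_mono (E := E) (S := Y.T k ω₀) (ω₀ := ω₀) (fun ω h1 _ => pt ω h1)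
  rw [CX_add, CX_smul, CX_smul] at hX1
  -- the probability of `alive (k+1)`
  have f4 := hin.f4 ω₀ hω hal
  -- the expected potential
  have key : CX E (Y.T k ω₀) ω₀ (fun ω => I (Y.alive (k + 1) ω) *
      (P.r * (G (k + 1) ω * (1 - P.c0 * I (Y.made k ω ∧ Y.NLA k ω))))) ≤
      G k ω₀ + 2 * P.e - P.c0 *
      CX E (Y.T k ω₀) ω₀ (fun ω => I (Y.made k ω ∧ Y.NLA k ω) * GA k ω) := by
    have e1 : CX E (Y.T k ω₀) ω₀ (fun ω => I (Y.alive (k + 1) ω) *
        (P.r * (G (k + 1) ω * (1 - P.c0 * I (Y.made k ω ∧ Y.NLA k ω))))) =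
        CX E (Y.T k ω₀) ω₀ (fun ω => I (Y.alive (k + 1) ω ∧ ¬ Y.made k ω) * (P.r * G (k + 1) ω)) +
        CX E (Y.T k ω₀) ω₀ (fun ω => (I (Y.made k ω) * (1 - P.c0 * I (Y.NLA k ω))) *
          (I (Y.alive (k + 1) ω) * (P.r * G (k + 1) ω))) := by
      rw [← CX_add]
      apply CX_congr
      intro ω _ _
      rw [I_and, I_and, I_not]
      ring
    have e2 : CX E (Y.T k ω₀) ω₀ (fun ω => (I (Y.made k ω) * (1 - P.c0 * I (Y.NLA k ω))) *
          (I (Y.alive (k + 1) ω) * (P.r * G (k + 1) ω))) ≤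
        CX E (Y.T k ω₀) ω₀ (fun ω => I (Y.made k ω) * (1 - P.c0 * I (Y.NLA k ω)) *
          (GA k ω + P.e)) := by
      have t := tower_A (Y := Y) (k := k) (H := ∅) hω (fun _ => ∅) (fun _ _ _ _ _ => rfl)
        (fun _ _ => Subset.refl _) (fun ω => (I (Y.made k ω) * (1 - P.c0 * I (Y.NLA k ω))) *
          (I (Y.alive (k + 1) ω) * (P.r * G (k + 1) ω)))
      rw [union_empty] at t
      rw [t]
      apply CX_mono
      intro ω h1 _
      rw [union_empty]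
      have m1 : Meas E (Y.A k) (fun ω => I (Y.made k ω) * (1 - P.c0 * I (Y.NLA k ω))) := by
        intro ω h1 ω' h1' h2
        show I (Y.made k ω') * (1 - P.c0 * I (Y.NLA k ω')) =
          I (Y.made k ω) * (1 - P.c0 * I (Y.NLA k ω))
        rw [Y.mMade k ω h1 ω' h1' h2, mNLA k ω h1 ω' h1' h2]
      rw [pull_meas h1 m1 (Subset.refl _)]
      have q0 : 0 ≤ (1 - P.c0 * I (Y.NLA k ω)) := by
        have := I_le_one (Y.NLA k ω)
        have := I_nonneg (Y.NLA k ω)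
        nlinarith
      by_cases hm : Y.made k ω
      · exact mul_le_mul_of_nonneg_left (hin.os2 ω h1 hm) (mul_nonneg (I_nonneg _) q0)
      · rw [I_false hm]; simp
    have e3 : CX E (Y.T k ω₀) ω₀ (fun ω => I (Y.made k ω) * (1 - P.c0 * I (Y.NLA k ω)) *
          (GA k ω + P.e)) ≤ CX E (Y.T k ω₀) ω₀ (fun ω => I (Y.made k ω) * GA k ω) -
          P.c0 * CX E (Y.T k ω₀) ω₀ (fun ω => I (Y.made k ω ∧ Y.NLA k ω) * GA k ω) + P.e := by
      have e4 : CX E (Y.T k ω₀) ω₀ (fun ω => I (Y.made k ω) * GA k ω) -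
          P.c0 * CX E (Y.T k ω₀) ω₀ (fun ω => I (Y.made k ω ∧ Y.NLA k ω) * GA k ω) + P.e =
          CX E (Y.T k ω₀) ω₀ (fun ω => I (Y.made k ω) * GA k ω -
          P.c0 * (I (Y.made k ω ∧ Y.NLA k ω) * GA k ω) + P.e) := by
        rw [CX_add, CX_sub, CX_smul, CX_const hω]
      rw [e4]
      apply CX_mono
      intro ω h1 _
      rw [I_and]
      have b1 := I_nonneg (Y.made k ω)
      have b2 := I_le_one (Y.made k ω)
      have b3 := I_nonneg (Y.NLA k ω)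
      have b5 : I (Y.made k ω) * (1 - P.c0 * I (Y.NLA k ω)) ≤ 1 := by
        have b6 : 0 ≤ P.c0 * I (Y.NLA k ω) := by positivity
        have b7 : 0 ≤ I (Y.made k ω) * (P.c0 * I (Y.NLA k ω)) := by positivity
        linarith
      have b8 := mul_le_mul_of_nonneg_right b5 h.e0
      have b9 : I (Y.made k ω) * (1 - P.c0 * I (Y.NLA k ω)) * (GA k ω + P.e) =
        I (Y.made k ω) * GA k ω - P.c0 * (I (Y.made k ω) * I (Y.NLA k ω) * GA k ω) +
        I (Y.made k ω) * (1 - P.c0 * I (Y.NLA k ω)) * P.e := by ring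
      rw [b9]
      linarith
    have os := hin.os1 ω₀ hω hal
    rw [CX_add] at os
    rw [e1]
    linarith
  have e5 : CX E (Y.T k ω₀) ω₀ (fun ω => I (Y.alive (k + 1) ω) *
      (P.r * (G (k + 1) ω * (1 - P.c0 * I (Y.made k ω ∧ Y.NLA k ω))))) =
      P.r * CX E (Y.T k ω₀) ω₀ (fun ω => I (Y.alive (k + 1) ω) *
      (G (k + 1) ω * (1 - P.c0 * I (Y.made k ω ∧ Y.NLA k ω)))) := by
    rw [← CX_smul]
    apply CX_congr
    intro ω _ _
    ring
  rw [e5] at key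
  have r4 : P.r * CX E (Y.T k ω₀) ω₀ (fun ω' => I (Y.alive (k + 1) ω')) ≤
      P.C0 * (G k ω₀ + P.e1) := by
    have := mul_le_mul_of_nonneg_left f4 hr.le
    calc _ ≤ _ := this
      _ = P.C0 * (G k ω₀ + P.e1) := by field_simp
  have r5 := mul_le_mul_of_nonneg_left hX1 hr.le
  have r6 := mul_le_mul_of_nonneg_left key (show (0 : ℝ) ≤ 1 - P.th by linarith)
  have r7 := mul_le_mul_of_nonneg_left r4 (show (0 : ℝ) ≤ P.th * P.s0 + P.kap by
    have := h.s0p; have := h.kapp; positivity)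
  rw [mul_add] at r5
  generalize CX E (Y.T k ω₀) ω₀ (fun ω' => I (Y.alive (k + 1) ω')) = a1 at *
  generalize CX E (Y.T k ω₀) ω₀ (fun ω => I (Y.alive (k + 1) ω) *
      (G (k + 1) ω * (1 - P.c0 * I (Y.made k ω ∧ Y.NLA k ω)))) = a2 at *
  generalize CX E (Y.T k ω₀) ω₀ (fun ω => I (Y.made k ω ∧ Y.NLA k ω) * GA k ω) = a3 at *
  refine r5.trans ?_
  linarith

end step

end Pool.Agent.H75.Per
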