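import Mathlib
import Pool.Agent.H75.Per.Step

set_option autoImplicit false

/-! One scale of the recursion, continued (MP_2e6055, module REC). -/

namespace Pool.Agent.H75.Per

open Finset Classical

variable {α : Type*} {E : Finset α}
variable {Y : Sys E} {P : Par} {G GA : ℕ → Finset α → ℝ} {k : ℕ} {ch : ℕ → ℝ}
variable {ω₀ H : Finset α}

/-- the good event -/
def Sys.Gd (Y : Sys E) (k : ℕ) (ω : Finset α) : Prop := Y.NL k ω ∧ ¬ (Y.made k ω ∧ ¬ Y.NT k ω)

lemma mGd (k : ℕ) : Meas E (Y.T (k + 1)) (Y.Gd k) := by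
  intro ω h1 ω' h1' h
  unfold Sys.Gd
  rw [mNL k ω h1 ω' h1' h, mNT k ω h1 ω' h1' h, A_T k (Y.mMade k) ω h1 ω' h1' h]

lemma mMS (k : ℕ) : Meas E (fun ω => Y.T (k + 1) ω ∪ Y.FM k ω)
    (fun ω => 1 - I (Y.made k ω ∧ Y.succ k ω)) := by
  intro ω h1 ω' h1' h
  have hm := A_T k (Y.mMade k) ω h1 ω' h1' (agree_mono h subset_union_left)
  show 1 - I (Y.made k ω' ∧ Y.succ k ω') = 1 - I (Y.made k ω ∧ Y.succ k ω)
  by_cases hM : Y.made k ω
  · have hs : Y.succ k ω' = Y.succ k ω := by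
      apply Y.mSucc k ω h1 ω' h1'
      apply agree_mono h
      apply union_subset_union (Y.AT k ω h1)
      unfold Sys.FM
      rw [if_pos hM]
    rw [hm, hs]
  · rw [hm, I_false (fun h' => hM h'.1), I_false (fun h' => hM h'.1)]

lemma suc0 (h : P.Ok) (ω : Finset α) : 0 ≤ 1 - P.c0 * I (Y.made k ω) := by
  have := I_le_one (Y.made k ω)
  have := I_nonneg (Y.made k ω)
  nlinarith [h.c0p, h.c01]

lemma good_part (h : P.Ok) (hin : Y.In P G GA k) {c' : ℝ} (hc' : 0 ≤ c') {n : ℕ}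
    (hIH : IHn Y P G ch n (k + 1) c') (hω : ω₀ ⊆ E) (hH : H ⊆ Y.far k) :
    CX E (Y.T k ω₀ ∪ H) ω₀ (fun ω => (I (Y.Gd k ω) * (1 - I (Y.made k ω ∧ Y.succ k ω))) *
      Y.J ch n (k + 1) ω) ≤
    c' * CX E (Y.T k ω₀) ω₀ (fun ω => I (Y.NL k ω) * (I (Y.alive (k + 1) ω) *
      (Phi P (G (k + 1) ω) * (1 - P.c0 * I (Y.made k ω))))) := by
  have mPhi : Meas E (Y.T (k + 1)) (fun ω => I (Y.alive (k + 1) ω) *
      Phi P (G (k + 1) ω)) := by
    intro ω h1 ω' h1' h2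
    show I (Y.alive (k + 1) ω') * Phi P (G (k + 1) ω') =
      I (Y.alive (k + 1) ω) * Phi P (G (k + 1) ω)
    rw [Y.mAlive (k + 1) ω h1 ω' h1' h2, hin.mG' ω h1 ω' h1' h2]
  -- step A : apply the induction hypothesis
  have hA : CX E (Y.T k ω₀ ∪ H) ω₀ (fun ω => (I (Y.Gd k ω) *
      (1 - I (Y.made k ω ∧ Y.succ k ω))) * Y.J ch n (k + 1) ω) ≤
      CX E (Y.T k ω₀ ∪ H) ω₀ (fun ω => (I (Y.Gd k ω) * (c' * (I (Y.alive (k + 1) ω) *
        Phi P (G (k + 1) ω)))) * (1 - I (Y.made k ω ∧ Y.succ k ω))) := by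
    rw [tower_T hω (fun ω => Y.FM k ω ∪ H) (by
      intro ω h1 ω' h1' h
      show Y.FM k ω' ∪ H = Y.FM k ω ∪ H
      rw [A_T k (mFM k) ω h1 ω' h1' h]) (fun _ _ => subset_union_right)]
    apply CX_mono
    intro ω h1 _
    have m1 : Meas E (fun ω => Y.T (k + 1) ω ∪ Y.FM k ω)
        (fun ω => I (Y.Gd k ω) * (1 - I (Y.made k ω ∧ Y.succ k ω))) := by
      intro ω h1 ω' h1' h
      show I (Y.Gd k ω') * (1 - I (Y.made k ω' ∧ Y.succ k ω')) =
        I (Y.Gd k ω) * (1 - I (Y.made k ω ∧ Y.succ k ω))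
      rw [mGd k ω h1 ω' h1' (agree_mono h subset_union_left)]
      have := mMS k ω h1 ω' h1' h
      dsimp only at this
      rw [this]
    rw [pull_meas h1 m1 (union_subset_union (Subset.refl _) subset_union_left)]
    have h3 := hIH ω h1 (Y.FM k ω ∪ H) (union_subset (FM_far h1) (hH.trans (Y.farMono k)))
    have h5 := I_le_one (Y.made k ω ∧ Y.succ k ω)
    have h6 := mul_le_mul_of_nonneg_left h3 (mul_nonneg (I_nonneg (Y.Gd k ω)) (sub_nonneg.2 h5))
    refine h6.trans (le_of_eq ?_)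
    ring
  refine hA.trans ?_
  -- step B : the success probability
  have hB : CX E (Y.T k ω₀ ∪ H) ω₀ (fun ω => (I (Y.Gd k ω) * (c' * (I (Y.alive (k + 1) ω) *
        Phi P (G (k + 1) ω)))) * (1 - I (Y.made k ω ∧ Y.succ k ω))) ≤
      CX E (Y.T k ω₀ ∪ H) ω₀ (fun ω => c' * (I (Y.NL k ω) * (I (Y.alive (k + 1) ω) *
      (Phi P (G (k + 1) ω) * (1 - P.c0 * I (Y.made k ω)))))) := by
    rw [tower_T hω (fun _ => H) (fun _ _ _ _ _ => rfl) (fun _ _ => Subset.refl _)]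
    apply CX_mono
    intro ω h1 _
    have m1 : Meas E (Y.T (k + 1)) (fun ω => I (Y.Gd k ω) * (c' * (I (Y.alive (k + 1) ω) *
        Phi P (G (k + 1) ω)))) := by
      intro ω h1 ω' h1' h
      have := mPhi ω h1 ω' h1' h
      dsimp only at this ⊢
      rw [this, mGd k ω h1 ω' h1' h]
    rw [pull_meas h1 m1 subset_union_left]
    have hphi : 0 ≤ Phi P (G (k + 1) ω) := Phi_nonneg h (hin.G0' ω h1)
    have ha := I_nonneg (Y.alive (k + 1) ω)
    by_cases hg : Y.Gd k ω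
    · rw [I_true hg, I_true hg.1, one_mul, one_mul]
      have hs : CX E (Y.T (k + 1) ω ∪ H) ω (fun ω' => 1 - I (Y.made k ω' ∧ Y.succ k ω')) ≤
          1 - P.c0 * I (Y.made k ω) := by
        rw [CX_sub, CX_const h1]
        have e1 : CX E (Y.T (k + 1) ω ∪ H) ω (fun ω' => I (Y.made k ω' ∧ Y.succ k ω')) =
            I (Y.made k ω) * CX E (Y.T (k + 1) ω ∪ H) ω (fun ω' => I (Y.succ k ω')) := by
          rw [← pull_meas h1 (Meas_I (A_T k (Y.mMade k))) subset_union_left]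
          apply CX_congr
          intro ω' _ _
          rw [I_and]
        rw [e1]
        by_cases hm : Y.made k ω
        · rw [I_true hm, one_mul, mul_one]
          have hnt : Y.NT k ω := by
            by_contra hn
            exact hg.2 ⟨hm, hn⟩
          have hd : Disjoint (Y.T (k + 1) ω ∪ H) (Y.Fr k ω) := by
            rw [disjoint_union_left]
            exact ⟨hnt, (Y.FrNear k ω h1 hm).mono_left hH⟩
          have := suc_of hin h1 hm ((Y.AT k ω h1).trans subset_union_left) hd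
          linarith
        · rw [I_false hm]; simp
      have h7 : 0 ≤ c' * (I (Y.alive (k + 1) ω) * Phi P (G (k + 1) ω)) := by
        positivity
      refine (mul_le_mul_of_nonneg_left hs h7).trans (le_of_eq ?_)
      ring
    · rw [I_false hg, zero_mul, zero_mul]
      have := suc0 h (Y := Y) (k := k) ω
      have := I_nonneg (Y.NL k ω)
      positivity
  refine hB.trans ?_
  rw [CX_smul]
  apply mul_le_mul_of_nonneg_left _ hc'
  apply le_of_eq
  apply no_adv hω hH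
  · intro ω h1 ω' h1' h
    dsimp only
    rw [Y.mAlive (k + 1) ω h1 ω' h1' h, hin.mG' ω h1 ω' h1' h,
      mNL k ω h1 ω' h1' h, A_T k (Y.mMade k) ω h1 ω' h1' h]
  · intro ω _ hn
    rw [I_false hn, zero_mul]

/-- the touch event -/
lemma touch_part (hin : Y.In P G GA k) (hω : ω₀ ⊆ E) (hH : H ⊆ Y.far k) :
    CX E (Y.T k ω₀ ∪ H) ω₀ (fun ω => I (Y.alive (k + 1) ω ∧ (Y.NL k ω ∧ (Y.made k ω ∧
      ¬ Y.NT k ω)))) ≤ P.C0 / P.r * P.e3 *
    CX E (Y.T k ω₀ ∪ H) ω₀ (fun ω => I (Y.made k ω ∧ Y.NLA k ω)) := by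
  have h1 : CX E (Y.T k ω₀ ∪ H) ω₀ (fun ω => I (Y.alive (k + 1) ω ∧ (Y.NL k ω ∧ (Y.made k ω ∧
      ¬ Y.NT k ω)))) ≤ CX E (Y.T k ω₀ ∪ H) ω₀ (fun ω => I (Y.made k ω ∧ Y.NLA k ω) *
      I (Y.alive (k + 1) ω ∧ ¬ Y.NT k ω)) := by
    apply CX_mono
    intro ω h1 _
    rw [← I_and]
    apply I_mono
    rintro ⟨a, b, c, d⟩
    exact ⟨⟨c, NL_NLA h1 b⟩, a, d⟩
  refine h1.trans ?_
  rw [tower_A hω (fun ω => Y.FM k ω ∪ H) (by
    intro ω h1 ω' h1' h
    show Y.FM k ω' ∪ H = Y.FM k ω ∪ H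
    rw [mFM k ω h1 ω' h1' h]) (fun _ _ => subset_union_right), ← CX_smul]
  apply CX_mono
  intro ω h2 _
  have m1 : Meas E (Y.A k) (fun ω => Y.made k ω ∧ Y.NLA k ω) := by
    intro ω h1 ω' h1' h2
    show (Y.made k ω' ∧ Y.NLA k ω') = (Y.made k ω ∧ Y.NLA k ω)
    rw [Y.mMade k ω h1 ω' h1' h2, mNLA k ω h1 ω' h1' h2]
  rw [pull_meas h2 (Meas_I m1) subset_union_left]
  by_cases hm : Y.made k ω ∧ Y.NLA k ω
  · rw [I_true hm, one_mul, mul_one]
    have := hin.touch ω h2 hm.1 H hH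
    unfold Sys.FM
    rw [if_pos hm.1]
    exact this
  · rw [I_false hm, zero_mul, mul_zero]

/-- **One scale of the recursion.** -/
theorem step (h : P.Ok) (hin : Y.In P G GA k) (hch : ∀ k, 0 ≤ ch k) {c : ℝ} (hc : 0 < c)
    (hchk : ch k ≤ P.chi * c) {n : ℕ} (hIH : IHn Y P G ch n (k + 1) (c * P.r / P.q)) :
    IHn Y P G ch (n + 1) k c := by
  intro ω₀ hω H hH
  by_cases hal : Y.alive k ω₀
  swap
  · rw [I_false hal, zero_mul, mul_zero]
    apply CX_le hω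
    intro ω h1 h2
    rw [J_dead h1]
    rw [Y.mAlive k ω₀ hω ω h1 (agree_mono h2 subset_union_left)]
    exact hal
  rw [I_true hal, one_mul]
  have hr : 0 < P.r := by linarith [h.r1]
  have q0 := h.q0
  have q1 := h.q1
  have C01 := h.C01
  have hc' : 0 ≤ c * P.r / P.q := by positivity
  set S := Y.T k ω₀ ∪ H with hS
  set YY := CX E (Y.T k ω₀) ω₀ (fun ω => I (Y.made k ω ∧ Y.NLA k ω) * GA k ω) with hYY
  have hYY0 : 0 ≤ YY := CX_nonneg fun ω h1 _ => mul_nonneg (I_nonneg _) (hin.GA0 ω h1)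
  -- the attempts
  have hmade : CX E S ω₀ (fun ω => I (Y.made k ω)) ≤ YY / P.s3 + P.e2 := by
    have e1 : CX E S ω₀ (fun ω => I (Y.made k ω)) =
        CX E S ω₀ (fun ω => I (Y.made k ω ∧ Y.NLA k ω)) +
        CX E S ω₀ (fun ω => I (Y.made k ω ∧ ¬ Y.NLA k ω)) := by
      rw [← CX_add]
      apply CX_congr
      intro ω _ _
      rw [I_and, I_and, I_not]
      ring
    rw [e1]
    exact add_le_add (made_le h hin hω hH) (hin.lrA ω₀ hω hal H hH)
  -- the three parts of the continuation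
  have hg := good_part h hin hc' hIH hω hH
  have hm := main_term h hin hω hal
  have hnl := bound_event h hin hc' hIH hω hH (X := fun ω => ¬ Y.NL k ω) (by
    intro ω h1 ω' h1' h2
    show (¬ Y.NL k ω') = (¬ Y.NL k ω)
    rw [mNL k ω h1 ω' h1' h2])
  have hlr := hin.lr ω₀ hω hal H hH
  have hto := bound_event h hin hc' hIH hω hH
    (X := fun ω => Y.NL k ω ∧ (Y.made k ω ∧ ¬ Y.NT k ω)) (by
    intro ω h1 ω' h1' h2
    show (Y.NL k ω' ∧ (Y.made k ω' ∧ ¬ Y.NT k ω')) = (Y.NL k ω ∧ (Y.made k ω ∧ ¬ Y.NT k ω))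
    rw [mNL k ω h1 ω' h1' h2, mNT k ω h1 ω' h1' h2, A_T k (Y.mMade k) ω h1 ω' h1' h2])
  have hto2 := touch_part hin hω hH
  have hto3 := made_le h hin hω hH
  rw [← hS] at hg hnl hlr hto hto2 hto3
  rw [← hYY] at hto3 hm
  -- decomposition
  have dec : CX E S ω₀ (Y.J ch (n + 1) k) ≤ ch k * CX E S ω₀ (fun ω => I (Y.made k ω)) +
      (CX E S ω₀ (fun ω => (I (Y.Gd k ω) * (1 - I (Y.made k ω ∧ Y.succ k ω))) *
      Y.J ch n (k + 1) ω) + CX E S ω₀ (fun ω => I (¬ Y.NL k ω) * Y.J ch n (k + 1) ω) +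
      CX E S ω₀ (fun ω => I (Y.NL k ω ∧ (Y.made k ω ∧ ¬ Y.NT k ω)) * Y.J ch n (k + 1) ω)) := by
    rw [← CX_smul, ← CX_add, ← CX_add, ← CX_add]
    apply CX_mono
    intro ω _ _
    show ch k * I (Y.made k ω) + (1 - I (Y.made k ω ∧ Y.succ k ω)) * Y.J ch n (k + 1) ω ≤ _
    have hJ := J_nonneg (Y := Y) hch n (k + 1) ω
    have hs0 := I_nonneg (Y.made k ω ∧ Y.succ k ω)
    have hs1 := I_le_one (Y.made k ω ∧ Y.succ k ω)
    have hJ1 : (1 - I (Y.made k ω ∧ Y.succ k ω)) * Y.J ch n (k + 1) ω ≤ Y.J ch n (k + 1) ω :=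
      mul_le_of_le_one_left hJ (by linarith)
    by_cases hn : Y.NL k ω
    · by_cases ht : Y.made k ω ∧ ¬ Y.NT k ω
      · rw [I_false (p := Y.Gd k ω) (fun h' => h'.2 ht), I_false (p := ¬ Y.NL k ω)
          (fun h' => h' hn), I_true (p := Y.NL k ω ∧ (Y.made k ω ∧ ¬ Y.NT k ω)) ⟨hn, ht⟩]
        linarith
      · rw [I_true (p := Y.Gd k ω) ⟨hn, ht⟩, I_false (p := ¬ Y.NL k ω)
          (fun h' => h' hn), I_false (p := Y.NL k ω ∧ (Y.made k ω ∧ ¬ Y.NT k ω))
          (fun h' => ht h'.2)]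
        linarith
    · rw [I_false (p := Y.Gd k ω) (fun h' => hn h'.1), I_true (p := ¬ Y.NL k ω) hn,
        I_false (p := Y.NL k ω ∧ (Y.made k ω ∧ ¬ Y.NT k ω)) (fun h' => hn h'.1)]
      linarith
  have hc5 := fun hs => hin.f5 ω₀ hω hal hs
  rw [← hYY] at hc5
  -- numbers
  have k1 : c * P.r / P.q * (P.C0 / P.r) = c / P.q * P.C0 := by field_simp
  have chk0 := hch k
  have s3p := h.s3p
  have main : P.q / c * CX E S ω₀ (Y.J ch (n + 1) k) ≤ P.q *
      (G k ω₀ * (1 - P.th * (if P.s0 ≤ G k ω₀ then 1 else 0)) + P.kap) := by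
    have hqc : 0 < P.q / c := by positivity
    have qcc : P.q / c * (c / P.q) = 1 := by field_simp
    have qch : P.q / c * ch k ≤ P.chi := by
      rw [div_mul_eq_mul_div, div_le_iff₀ hc]
      calc P.q * ch k ≤ 1 * ch k := mul_le_mul_of_nonneg_right q1 chk0
        _ ≤ P.chi * c := by rw [one_mul]; exact hchk
    apply step_arith h (hin.G0 ω₀ hω) (hin.G4 ω₀ hω) hYY0 (hc := hc5)
    · -- hV1
      have A1 : P.q / c * (ch k * CX E S ω₀ (fun ω => I (Y.made k ω))) ≤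
          P.chi * (YY / P.s3 + P.e2) := by
        rw [← mul_assoc]
        have hm0 : 0 ≤ CX E S ω₀ (fun ω => I (Y.made k ω)) := CX_nonneg fun _ _ _ => I_nonneg _
        exact mul_le_mul qch hmade hm0 h.chi0
      have A2 : P.q / c * CX E S ω₀ (fun ω => (I (Y.Gd k ω) * (1 - I (Y.made k ω ∧ Y.succ k ω))) *
          Y.J ch n (k + 1) ω) ≤ (1 - P.th) * (G k ω₀ + 2 * P.e - P.c0 * YY) +
          (P.th * P.s0 + P.kap) * P.C0 * (G k ω₀ + P.e1) := by
        refine le_trans ?_ hm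
        have := mul_le_mul_of_nonneg_left hg hqc.le
        refine this.trans (le_of_eq ?_)
        rw [← mul_assoc]
        congr 1
        field_simp
      have A3 : P.q / c * CX E S ω₀ (fun ω => I (¬ Y.NL k ω) * Y.J ch n (k + 1) ω) ≤
          5 * P.C0 * P.e2 := by
        have h1 := mul_le_mul_of_nonneg_left (hnl.trans
          (mul_le_mul_of_nonneg_left hlr (by positivity))) hqc.le
        refine h1.trans (le_of_eq ?_)
        field_simp
      have A4 : P.q / c * CX E S ω₀ (fun ω => I (Y.NL k ω ∧ (Y.made k ω ∧ ¬ Y.NT k ω)) *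
          Y.J ch n (k + 1) ω) ≤ 5 * P.C0 * P.e3 * (YY / P.s3) := by
        have he3 := h.e30
        have h2 : 0 ≤ P.C0 / P.r * P.e3 := by positivity
        have h1 := mul_le_mul_of_nonneg_left (hto.trans
          (mul_le_mul_of_nonneg_left (hto2.trans (mul_le_mul_of_nonneg_left hto3 h2))
            (by positivity))) hqc.le
        refine h1.trans (le_of_eq ?_)
        field_simp
      have A5 := mul_le_mul_of_nonneg_left dec hqc.le
      rw [mul_add, mul_add, mul_add] at A5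
      linarith
  have e9 : P.q / c * CX E S ω₀ (Y.J ch (n + 1) k) = P.q * (CX E S ω₀ (Y.J ch (n + 1) k) / c) := by
    ring
  rw [e9] at main
  have := le_of_mul_le_mul_left main q0
  rw [div_le_iff₀ hc] at this
  unfold Phi
  linarith

end Pool.Agent.H75.Per
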