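import Mathlib
import Pool.Agent.H75.Per.Step2

set_option autoImplicit false

/-! The recursion over the scales for one site (MP_2e6055, module REC): the conclusion. -/

namespace Pool.Agent.H75.Per

open Finset Classical

variable {α : Type*} {E : Finset α}
variable {Y : Sys E} {P : Par} {G GA : ℕ → Finset α → ℝ} {ch : ℕ → ℝ}

/-- The last scale. -/
lemma rec_base (h : P.Ok) {m : ℕ} {c : ℝ} (hc : 0 < c) (hG : ∀ ω ⊆ E, 0 ≤ G m ω)
    (hcm : 1 ≤ c * P.kap) : IHn Y P G ch 0 m c := by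
  intro ω₀ hω H hH
  have e1 : CX E (Y.T m ω₀ ∪ H) ω₀ (Y.J ch 0 m) = I (Y.alive m ω₀) := by
    rw [← CX_const hω (S := Y.T m ω₀ ∪ H) (I (Y.alive m ω₀))]
    apply CX_congr
    intro ω h1 h2
    show I (Y.alive m ω) = I (Y.alive m ω₀)
    rw [Y.mAlive m ω₀ hω ω h1 (agree_mono h2 subset_union_left)]
  rw [e1]
  have h1 : c * P.kap ≤ c * Phi P (G m ω₀) :=
    mul_le_mul_of_nonneg_left (kap_le_Phi h (hG ω₀ hω)) hc.le
  have h2 := I_nonneg (Y.alive m ω₀)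
  calc I (Y.alive m ω₀) = I (Y.alive m ω₀) * 1 := (mul_one _).symm
    _ ≤ I (Y.alive m ω₀) * (c * Phi P (G m ω₀)) :=
        mul_le_mul_of_nonneg_left (hcm.trans h1) h2
    _ = c * (I (Y.alive m ω₀) * Phi P (G m ω₀)) := by ring

/-- **REC.**  The cost from scale `k` on. -/
theorem rec_all (h : P.Ok) {m : ℕ} (hin : ∀ k < m, Y.In P G GA k) (hch : ∀ k, 0 ≤ ch k) {c : ℝ}
    (hc : 0 < c) (hchk : ∀ k < m, ch k ≤ P.chi * (c * (P.r / P.q) ^ k))
    (hG : ∀ ω ⊆ E, 0 ≤ G m ω) (hcm : 1 ≤ c * (P.r / P.q) ^ m * P.kap) :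
    ∀ n k, k + n = m → IHn Y P G ch n k (c * (P.r / P.q) ^ k) := by
  have hr : 0 < P.r := by linarith [h.r1]
  have q0 := h.q0
  intro n
  induction n with
  | zero =>
    intro k hk
    have : k = m := by omega
    subst this
    exact rec_base h (by positivity) hG hcm
  | succ n ih =>
    intro k hk
    have hkm : k < m := by omega
    apply step h (hin k hkm) hch (by positivity) (hchk k hkm)
    have e1 : c * (P.r / P.q) ^ k * P.r / P.q = c * (P.r / P.q) ^ (k + 1) := by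
      rw [pow_succ]; ring
    rw [e1]
    exact ih (k + 1) (by omega)

/-- **REC, final form.**  If the charges satisfy `ch k ≤ chi kap⁻¹ (q/r)^(m-k)` then the expected cost
of the site is at most `5 kap⁻¹ (q/r)^m P(alive 0)`. -/
theorem rec_main (h : P.Ok) {m : ℕ} (hin : ∀ k < m, Y.In P G GA k) (hch : ∀ k, 0 ≤ ch k)
    (hchk : ∀ k < m, ch k ≤ P.chi * (P.kap⁻¹ * (P.q / P.r) ^ (m - k)))
    (hG0 : ∀ ω ⊆ E, 0 ≤ G 0 ω) (hG4 : ∀ ω ⊆ E, G 0 ω ≤ 4) (hG : ∀ ω ⊆ E, 0 ≤ G m ω)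
    (ω₀ : Finset α) :
    CX E ∅ ω₀ (Y.J ch m 0) ≤
      5 * P.kap⁻¹ * (P.q / P.r) ^ m * CX E ∅ ω₀ (fun ω => I (Y.alive 0 ω)) := by
  have hr : 0 < P.r := by linarith [h.r1]
  have q0 := h.q0
  have kp := h.kapp
  set c := P.kap⁻¹ * (P.q / P.r) ^ m with hcdef
  have hc : 0 < c := by positivity
  have e0 : ∀ k ≤ m, c * (P.r / P.q) ^ k = P.kap⁻¹ * (P.q / P.r) ^ (m - k) := by
    intro k hk
    have h1 : (P.q / P.r) ^ m = (P.q / P.r) ^ (m - k) * (P.q / P.r) ^ k := by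
      rw [← pow_add]; congr 1; omega
    have h2 : (P.q / P.r) ^ k * (P.r / P.q) ^ k = 1 := by
      rw [← mul_pow]
      have : P.q / P.r * (P.r / P.q) = 1 := by field_simp
      rw [this, one_pow]
    rw [hcdef, h1]
    linear_combination (P.kap⁻¹ * (P.q / P.r) ^ (m - k)) * h2
  have key := rec_all (ch := ch) h hin hch hc (fun k hk => by rw [e0 k hk.le]; exact hchk k hk)
    hG (by
      rw [e0 m le_rfl, Nat.sub_self, pow_zero, mul_one, inv_mul_cancel₀ kp.ne']) m 0 (by omega)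
  rw [pow_zero, mul_one] at key
  have t := tower_stop (F := Y.J ch m 0) (S := ∅) (ω₀ := ω₀) (Y.stopT 0) ∅
    (fun _ _ _ => empty_subset _)
  rw [t, ← CX_smul]
  apply CX_mono
  intro ω h1 _
  refine (key ω h1 ∅ (empty_subset _)).trans ?_
  have h5 := Phi_le h (hG0 ω h1) (hG4 ω h1)
  have h6 := I_nonneg (Y.alive 0 ω)
  calc c * (I (Y.alive 0 ω) * Phi P (G 0 ω)) ≤ c * (I (Y.alive 0 ω) * 5) := by gcongr
    _ = 5 * P.kap⁻¹ * (P.q / P.r) ^ m * I (Y.alive 0 ω) := by rw [hcdef]; ring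

end Pool.Agent.H75.Per
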